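import Pool.Agent.Lib.MP_943dad_ag.AL.Main

/-!
# Almost all covers have big monodromy

Definitions: the free group `F g n` with its boundary word `R g n`: `Pool/Agent/Lib/MP_943dad_ag/HMv/Defs.lean`; `Cov` (the
covers which are branched over all `n` points): `Pool/Agent/Lib/MP_943dad_ag/AL/Cnt.lean`; `Big` (connected and big
monodromy): `Pool/Agent/Lib/MP_943dad_ag/AL/Main.lean`; `CohSet`, `Coh`, `Fixes`, `Stab`, `Pol`, `InLie`:
`Pool/Agent/Lib/MP_943dad_ag/BM/Defs.lean`; `H1`, `inn`, `mon`, `IsPrim`, `IsCup`, `Sympl`, `IsZ`, `BigM`: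
`Pool/Agent/Lib/MP_943dad_ag/BM/St.lean`.
-/

open Pool.Agent.HMv Pool.Agent.AL

namespace Pool.Agent.Results.MP_943dad_ag.AlmostAllCovers

/-- For every finite group `H` and every genus `g ≥ 3`, all but an exponentially small proportion of the `H`-covers of the
closed surface of genus `g` which are branched over `n` given points have big monodromy. -/
theorem result (H : Type) [Group H] [Fintype H] : ∃ C θ : ℝ, 0 < θ ∧ θ < 1 ∧ ∀ g n : ℕ, 3 ≤ g →
    ({φ ∈ Cov H g n | ¬ Big φ}.ncard : ℝ) ≤ C * θ ^ n * (Cov H g n).ncard :=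
  almost_all H

end Pool.Agent.Results.MP_943dad_ag.AlmostAllCovers
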