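import Pool.Agent.Lib.MP_943dad_ag.MB.Iter

/-!
# Big monodromy for the covers of a surface with group `H`

Definitions: the free group `F g n` with its boundary word `R g n`: `Pool/Agent/Lib/MP_943dad_ag/HMv/Defs.lean`; `CohSet`,
`Coh` (the cohomology of the cover), `Fixes`, `Stab` (the mapping classes which fix the cover), `Pol`, `InLie` (the Lie
algebra of the Zariski closure): `Pool/Agent/Lib/MP_943dad_ag/BM/Defs.lean`; `H1` (the cohomology as a vector space), `inn`
(the deck transformations), `mon` (the action of the mapping classes), `IsPrim`, `IsCup` (the cup product), `Sympl`, `IsZ`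
(the Lie algebra of the centralizer of `H` in the symplectic group), `BigM`: `Pool/Agent/Lib/MP_943dad_ag/BM/St.lean`;
`IrrK` (the kernels of irreducible representations): `Pool/Agent/Lib/MP_943dad_ag/BM/Irr.lean`; `freq` (the subgroup
generated by the frequent classes): `Pool/Agent/Lib/MP_943dad_ag/MB/Frq.lean`; `Adm`:
`Pool/Agent/Lib/MP_943dad_ag/SO/GC.lean`; `Cost`, `GCost`: `Pool/Agent/Lib/MP_943dad_ag/SO/Cost.lean`; `TrivH`:
`Pool/Agent/Lib/MP_943dad_ag/BM/Hdl.lean`.
-/

open Pool.Agent.HMv Pool.Agent.BigMon
open Pool.Agent.BM (IrrK TrivH)
open Pool.Agent.MB (freq)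

namespace Pool.Agent.Results.MP_943dad_ag.BigMonodromy

/-- **Big monodromy.** Let `H` be a finite group, `g ≥ 3` and `φ` a Galois `H`-cover, branched over `n` points, of the
closed surface of genus `g`. Suppose that for every normal subgroup `M` which contains the kernel of an irreducible complex
representation of `H` one of the following holds: `H / M` has `d` generators and a cost `m < g` for some `d` (`Adm`); the
cover modulo `M` is trivial on a handle of the surface, which may depend on `M` (`TrivH`); a nontrivial conjugacy class of
`H / M` contains at least `|H / M|³ + |H / M|² + 1` of the monodromies of the branch points. There is a cup product `ω` on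
the first cohomology of the cover, it is symplectic, and for every subgroup `Δ` of finite index of the group of the mapping
classes which fix `φ`, the Lie algebra of the Zariski closure of the image of `Δ` contains all commutators of elements of
the Lie algebra of the centralizer of `H` in the symplectic group of `ω`. -/
theorem result (H : Type) [Group H] [Fintype H] (g n : ℕ) (hg3 : 3 ≤ g)
    (φ : F g n →* H) (hφ : Function.Surjective φ) (hR : φ (R g n) = 1)
    (h : ∀ (N M : Subgroup H) [N.Normal] [M.Normal], IrrK N → N ≤ M →
      Adm g (H ⧸ M) ∨ TrivH ((QuotientGroup.mk' M).comp φ) ∨ freq ((QuotientGroup.mk' M).comp φ) ≠ ⊥) :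
    ∃ ω : Form φ, IsCup φ ω ∧ Sympl ω ∧ BigM φ ω :=
  Pool.Agent.MB.big_of_iter hg3 φ hφ hR h

end Pool.Agent.Results.MP_943dad_ag.BigMonodromy
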