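import Pool.Agent.Lib.MP_943dad_ag.MB.Types

/-!
# Big monodromy for all but finitely many types of covers

Definitions: the free group `F g n` with its boundary word `R g n`: `Pool/Agent/Lib/MP_943dad_ag/HMv/Defs.lean`; `CohSet`,
`Coh`, `Fixes`, `Stab`, `Pol`, `InLie`: `Pool/Agent/Lib/MP_943dad_ag/BM/Defs.lean`; `H1`, `inn`, `mon`, `IsPrim`, `IsCup`,
`Sympl`, `IsZ`, `BigM`: `Pool/Agent/Lib/MP_943dad_ag/BM/St.lean`.
-/

open Pool.Agent.HMv Pool.Agent.BigMon

namespace Pool.Agent.Results.MP_943dad_ag.FinitelyManyTypes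

/-- Let `H` be a finite group all of whose proper quotients are cyclic, for instance a simple group or a symmetric group of
degree different from `4`. All `H`-covers of the closed surface of genus `g ≥ 3`, branched over `n` points, have big
monodromy if `g ≥ |H|` or `n ≥ |H|⁴`, so for all but finitely many pairs `(g, n)`. -/
theorem result (H : Type) [Group H] [Fintype H] (hH : ∀ (B : Subgroup H) [B.Normal], B ≠ ⊥ → IsCyclic (H ⧸ B))
    (g n : ℕ) (hg : 3 ≤ g) (hgn : Nat.card H ≤ g ∨ Nat.card H ^ 4 ≤ n)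
    (φ : F g n →* H) (hφ : Function.Surjective φ) (hR : φ (R g n) = 1) (hc : ∀ j : Fin n, φ (c g j) ≠ 1) :
    ∃ ω : Form φ, IsCup φ ω ∧ Sympl ω ∧ BigM φ ω :=
  (Pool.Agent.MB.big_types (fun B _ hB => Pool.Agent.MB.adm_cyclic (hH B hB) (by omega)) hg hgn φ hφ hR hc).2

end Pool.Agent.Results.MP_943dad_ag.FinitelyManyTypes
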