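import Pool.Agent.Lib.MP_943dad_ag.SO.Cost

/-!
# Trivial handles for surjections of a surface group onto a finite group

Let `H` be a finite group with `d` generators. A surjection of the free group `F g n` (the fundamental group of a
surface of genus `g` with `n` punctures and one boundary component) onto `H` becomes, after an automorphism which
fixes the boundary word and maps each `c_j` to a conjugate, trivial on all handles but the first `m`, where `m` is
computed along a normal series of `H`: a cyclic factor changes `m` into `max m d`, a soluble factor changes `m` into
`max m (d + 1)`, another factor `N` adds the cost `Cost` of a chain of subgroups of `N` (index `q`, normal or not: `q - 1`).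
So `m = d` for supersoluble `H` (nilpotent, metacyclic, …), `m = d + 1` for soluble `H`, and `m = k (k - 1) / 2` for the
symmetric group of degree `k` (`cost_perm`). The definitions `Cost`, `GCost` are in
`Pool/Agent/Lib/MP_943dad_ag/SO/Cost.lean`.
-/

open Pool.Agent.HMv

namespace Pool.Agent.Results.MP_943dad_ag.SolubleHandles

/-- **Trivial handles.** Let `H` be a finite group with `d` generators and `GCost d H m`. After an
automorphism of the free group `F g n` which fixes the boundary word and maps each `c_j` to a
conjugate of `c_j`, a surjection `F g n → H` is trivial on all handles but the first `m`. -/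
theorem result (H : Type) [Group H] [Finite H] (d : ℕ) (s : Fin d → H)
    (hs : Subgroup.closure (Set.range s) = ⊤) (m : ℕ) (hm : GCost d H m)
    (g n : ℕ) (φ : F g n →* H) (hφ : Function.Surjective φ) :
    ∃ α : F g n ≃* F g n, α (R g n) = R g n ∧ (∀ j : Fin n, IsConj (α (c g j)) (c g j)) ∧
      ∀ i : Fin g, m ≤ (i : ℕ) → φ (α (a n i)) = 1 ∧ φ (α (b n i)) = 1 :=
  handles_of_killsGen (killsGen_of_cost hm inferInstance ⟨s, hs⟩) φ hφ

end Pool.Agent.Results.MP_943dad_ag.SolubleHandles
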